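import Pool.Agent.W895.BC.Qu

/-!
# Exact quantum programs against Boolean combinations of `NP`, `BPP` and `SBP` predicates in
# linear time

The model is the one of time-space lower bounds: branching programs on `n` Boolean variables,
`2 ^ s` nodes stand for space `s`, the number of queries for the time.

We give promise problems which are solved without error by quantum branching programs with
`β n * n` basis states (that is, `log n + log β n` qubits) and `2 n + 2` queries, where `β` tends
to infinity as slowly as one likes. They are solved in time `k n` and space `n / β n` by no
Boolean combination of a constant number of predicates which are given by the number of accepting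
programs (certificates, coin strings, ...) and by a threshold with a gap: the predicate is true if
at least `(1 + 1 / q) b` programs accept, and false if at most `b` programs do; here `b` may be as
small as a `2 ^ (- n / β n)` part of the number of the programs. Nondeterministic programs
(`b < 1`), their complements, randomised programs with two-sided error `1 / 2 - ε`, Merlin-Arthur
games with an error that is exponentially small in the length of the message of Merlin, and the
class `SBP` are of this form. So even the closure of `NP ∪ BPP ∪ SBP` under reductions with a
constant number of queries (in particular all levels of the Boolean hierarchy over `NP`) does not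
contain `EQP ⊆ BQP` if time is linear and space is sublinear.

The problem and the quantum program are those of the starting result
`MP_8064f4_lc.LinearTimePrograms` (lower bound there: randomised programs): there are `4 ^ p`
quadratic forms in blocks whose values are promised to be `⟨a, y⟩`, `y ∈ F₂ ^ (2 p)`, for some `a`,
and the inner product of the two halves of `a` is wanted. The treatment of programs of length `k n`
by rectangles is also from the starting files (`Pool.Agent.H554R2`, by many seats; the idea is due
to Ajtai and to Beame, Saks, Sun and Vee). New is the treatment of Boolean combinations: for a set
`S` of the predicates the inputs are weighted by the product, over `S`, of the `2 ρ`-th powers of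
the numbers of accepting programs, divided by `(1 + 1 / q) ^ ρ` for each element of `S`. For the
set `S` of the largest total weight nearly the whole weight is on inputs for which exactly the
predicates in `S` are true, and so the Boolean combination is constant there; but the weight is the
number of tuples of programs all of which accept, hence the positive and the negative instances
have about the same weight, since the inner product is a bent function.
-/

set_option autoImplicit false

namespace Pool.Agent.Results.MP_2eaaa0_lc.LinearTimeBooleanHierarchy

open Pool.Agent.H554R2.Sem Pool.Agent.H554R2.Coin Pool.Agent.H554R2.Qua

/-- The branching program `P` accepts the input `x` after at most `τ` queries. -/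
def Acc {n : ℕ} (P : BP (Fin n) Bool) (τ : ℕ) (x : Pt n) : Prop :=
  ∃ l, P.Comp x l true ∧ l.length ≤ τ

/-- A quantum branching program with at most `D * n` basis states and at most `2 * n + 2` queries
accepts all inputs in `Y true` with probability `1` and those in `Y false` with probability `0`. -/
def ExactQuantum (n D : ℕ) (Y : Bool → Set (Pt n)) : Prop :=
  ∃ Q : QBP n, Fintype.card Q.State ≤ D * n ∧ Q.len ≤ 2 * n + 2 ∧
    (∀ x ∈ Y true, Q.prob x = 1) ∧ ∀ x ∈ Y false, Q.prob x = 0

/-- The promise problem `Y` (`Y true` and `Y false` are the positive and the negative instances)
is not solved by a Boolean combination `g` of `s` predicates of the following kind, in time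
`k * n` and space `n / D`.  The predicate `i` is given by `I i` programs `P i ω` with at most
`2 ^ (n / D)` nodes and a threshold `b i > 0` with `I i ≤ b i * 2 ^ (n / D)`; it is true if at least
`(1 + 1 / q) * b i` of the programs accept within `τ ≤ k * n` queries, and false if at most `b i` of
them do; otherwise it is not defined.  So for some instance `x` one of the predicates is not
defined, or they are defined and `g` of their values is wrong. -/
def NoCombination (n k s q D : ℕ) (Y : Bool → Set (Pt n)) : Prop :=
  ∀ τ ≤ k * n, ∀ (I : Fin s → ℕ) (b : Fin s → ℝ) (P : ∀ i, Fin (I i) → BP (Fin n) Bool),
    (∀ i, 0 < b i ∧ (I i : ℝ) ≤ b i * 2 ^ (n / D)) →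
    (∀ i ω, Fintype.card (P i ω).State ≤ 2 ^ (n / D)) → ∀ g : (Fin s → Bool) → Bool,
    ∃ v, ∃ x ∈ Y v, (∃ i, b i < Nat.card {ω // Acc (P i ω) τ x} ∧
        q * Nat.card {ω // Acc (P i ω) τ x} < (q + 1) * b i) ∨
      g (fun i => decide ((q + 1) * b i ≤ q * Nat.card {ω // Acc (P i ω) τ x})) ≠ v

/-- Let `β n` tend to infinity, as slowly as one likes.  There is a family of promise problems
`F n` such that for all constants `k`, `s`, `q` and all large `n` the problem `F n` is solved
without error by a quantum program with `β n * n` basis states and `2 n + 2` queries, but by no
Boolean combination of `s` threshold predicates with the gap `1 + 1 / q` in time `k n` and space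
`n / β n`. -/
theorem result (β : ℕ → ℕ) (hβ : Filter.Tendsto β Filter.atTop Filter.atTop) :
    ∃ F : ∀ n, Bool → Set (Pt n), ∀ k s q : ℕ, ∃ N, ∀ n ≥ N,
      ExactQuantum n (β n) (F n) ∧ NoCombination n k s q (β n) (F n) :=
  Pool.Agent.W895.BC.qu_family β hβ

end Pool.Agent.Results.MP_2eaaa0_lc.LinearTimeBooleanHierarchy
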